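import Pool.Agent.E8helper28.RM.SNum

/-! The void probability of the GSE for small arguments. -/

open Finset

namespace Pool.Agent.E8helper28.RM

lemma sg_nonneg_small {s : ℝ} (h0 : 0 ≤ s) (h1 : s ≤ 1) : 0 ≤ sg s := by
  unfold sg
  apply intervalIntegral.integral_nonneg h0
  intro x hx
  obtain ⟨hx0, hx1⟩ := hx
  have hpi := Real.pi_pos
  rw [← K_even]
  by_cases hc : 0 ≤ 2 * x - s
  · rw [K_even]
    unfold K
    rcases eq_or_lt_of_le hc with h | h
    · rw [← h]; simp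
    · rw [Real.sinc_of_ne_zero (by positivity)]
      apply div_nonneg _ (by positivity)
      apply Real.sin_nonneg_of_nonneg_of_le_pi (by positivity)
      nlinarith
  · push Not at hc
    unfold K
    have h : 0 < -(2 * x - s) := by linarith
    rw [Real.sinc_of_ne_zero (by positivity)]
    apply div_nonneg _ (by positivity)
    apply Real.sin_nonneg_of_nonneg_of_le_pi (by positivity)
    nlinarith

lemma poly_small {p q : ℝ} (h1 : plo ≤ p) (h2 : p ≤ phi) (hq0 : 0 ≤ q) (hq1 : q ≤ 1) :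
    p ^ 2 / 4050 - p ^ 3 / 132300 * q + p ^ 4 / 7441875 * q ^ 2 +
      659 / 1244805408000 * p ^ 5 * q ^ 3 + 613 / 672126336000 * p ^ 6 * q ^ 4 -
      p ^ 7 / 115221657600 * q ^ 5 + p ^ 8 / 21332466892800 * q ^ 6 ≤ 0.024125 := by
  have hp0 : 0 ≤ p := plo_nonneg.trans h1
  have b2 : p ^ 2 ≤ 97.42 := (pow_le_pow_left₀ hp0 h2 2).trans (by unfold phi; norm_num)
  have b3 : 961 ≤ p ^ 3 := le_trans (by unfold plo; norm_num) (pow_le_pow_left₀ plo_nonneg h1 3)
  have b4 : p ^ 4 ≤ 9490 := (pow_le_pow_left₀ hp0 h2 4).trans (by unfold phi; norm_num)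
  have b5 : p ^ 5 ≤ 94000 := (pow_le_pow_left₀ hp0 h2 5).trans (by unfold phi; norm_num)
  have b6 : p ^ 6 ≤ 930000 := (pow_le_pow_left₀ hp0 h2 6).trans (by unfold phi; norm_num)
  have b8 : p ^ 8 ≤ 100000000 := (pow_le_pow_left₀ hp0 h2 8).trans (by unfold phi; norm_num)
  have q2 : q ^ 2 ≤ q := by nlinarith
  have q3 : q ^ 3 ≤ q := by
    have : q ^ 3 = q * q ^ 2 := by ring
    nlinarith [pow_nonneg hq0 2]
  have q4 : q ^ 4 ≤ q := by
    have : q ^ 4 = q * q ^ 3 := by ring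
    nlinarith [pow_nonneg hq0 3]
  have q6 : q ^ 6 ≤ q := by
    have h5 : q ^ 5 ≤ 1 := pow_le_one₀ hq0 hq1
    have : q ^ 6 = q * q ^ 5 := by ring
    nlinarith
  have t3 : 961 / 132300 * q ≤ p ^ 3 / 132300 * q := by
    apply mul_le_mul_of_nonneg_right _ hq0
    linarith
  have t4 : p ^ 4 / 7441875 * q ^ 2 ≤ 9490 / 7441875 * q := by
    apply mul_le_mul (by linarith) q2 (by positivity) (by norm_num)
  have t5 : 659 / 1244805408000 * p ^ 5 * q ^ 3 ≤ 659 / 1244805408000 * 94000 * q := by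
    apply mul_le_mul (by linarith) q3 (by positivity) (by norm_num)
  have t6 : 613 / 672126336000 * p ^ 6 * q ^ 4 ≤ 613 / 672126336000 * 930000 * q := by
    apply mul_le_mul (by linarith) q4 (by positivity) (by norm_num)
  have t7 : 0 ≤ p ^ 7 / 115221657600 * q ^ 5 := by positivity
  have t8 : p ^ 8 / 21332466892800 * q ^ 6 ≤ 100000000 / 21332466892800 * q := by
    apply mul_le_mul (by linarith) q6 (by positivity) (by norm_num)
  linarith

theorem EG4_small {t : ℝ} (h0 : 0 ≤ t) (h1 : t ≤ 1 / 2) : EG4 t - 1 + t ≤ 0.386 * t ^ 6 := by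
  have h := EG4_le (t := t) h0 (by linarith)
  set s := 2 * t with hs
  have hs0 : 0 ≤ s := by positivity
  have hs1 : s ≤ 1 := by linarith
  have a1 := sg_nonneg_small hs0 hs1
  have a2 := sg_le 2 hs0
  have a3 := QQ_ge 3 hs0
  have a4 : sg s ^ 2 ≤ (SU (2 * 2 + 1) (Real.pi ^ 2) s) ^ 2 := pow_le_pow_left₀ a1 a2 2
  set p := Real.pi ^ 2 with hp
  have key : (s ^ 2 + (SU (2 * 2 + 1) p s) ^ 2) / 2 - QL (2 * 3) p s =
      s ^ 6 * (p ^ 2 / 4050 - p ^ 3 / 132300 * s ^ 2 + p ^ 4 / 7441875 * (s ^ 2) ^ 2 +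
      659 / 1244805408000 * p ^ 5 * (s ^ 2) ^ 3 + 613 / 672126336000 * p ^ 6 * (s ^ 2) ^ 4 -
      p ^ 7 / 115221657600 * (s ^ 2) ^ 5 + p ^ 8 / 21332466892800 * (s ^ 2) ^ 6) := by
    unfold SU QL
    norm_num [sum_range_succ, Nat.factorial]
    ring
  have h2 := poly_small (p := p) (q := s ^ 2) plo_le le_phi (by positivity) (by nlinarith)
  have h3 := mul_le_mul_of_nonneg_left h2 (show 0 ≤ s ^ 6 by positivity)
  have h4 : s ^ 6 = 64 * t ^ 6 := by rw [hs]; ring
  rw [← key] at h3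
  rw [h4] at h3
  norm_num at h3 ⊢
  linarith

end Pool.Agent.E8helper28.RM
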