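import Pool.Agent.E8helper28.RM.Sine

/-! Polynomial bounds for the traces of the sine kernel. -/

open Matrix MeasureTheory Set Filter Topology

namespace Pool.Agent.E8helper28.RM

/-- partial sums for `sinc` -/
lemma K_le (m : ℕ) (u : ℝ) : K u ≤ ∑ j ∈ Finset.range (2 * m + 1),
    (-1 : ℝ) ^ j * (Real.pi ^ 2) ^ j * u ^ (2 * j) / ((2 * j + 1).factorial : ℝ) := by
  have hpi := Real.pi_pos
  by_cases hu : u = 0
  · subst hu
    rw [K_zero, Finset.sum_range_succ']
    simp
  · set z := Real.pi * |u| with hz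
    have hz0 : 0 < z := mul_pos hpi (abs_pos.2 hu)
    have h1 : K u = Real.sin z / z := by
      have : K u = K |u| := by
        rcases abs_cases u with ⟨h, _⟩ | ⟨h, _⟩
        · rw [h]
        · rw [h, K_even]
      rw [this]
      unfold K
      rw [← hz, Real.sinc_of_ne_zero hz0.ne']
    rw [h1, div_le_iff₀ hz0]
    refine ((taylor m).2.1 z hz0.le).trans (le_of_eq ?_)
    unfold Sn
    rw [Finset.sum_mul]
    refine Finset.sum_congr rfl fun j _ => ?_
    have h2 : (Real.pi ^ 2) ^ j * u ^ (2 * j) = z ^ (2 * j) := by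
      rw [hz, mul_pow, pow_mul u, pow_mul |u|, sq_abs, pow_mul]
    rw [pow_succ z, mul_assoc ((-1 : ℝ) ^ j), h2]
    ring

lemma K_ge (m : ℕ) (u : ℝ) : ∑ j ∈ Finset.range (2 * m + 2),
    (-1 : ℝ) ^ j * (Real.pi ^ 2) ^ j * u ^ (2 * j) / ((2 * j + 1).factorial : ℝ) ≤ K u := by
  have hpi := Real.pi_pos
  by_cases hu : u = 0
  · subst hu
    rw [K_zero, Finset.sum_range_succ']
    simp
  · set z := Real.pi * |u| with hz
    have hz0 : 0 < z := mul_pos hpi (abs_pos.2 hu)
    have h1 : K u = Real.sin z / z := by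
      have : K u = K |u| := by
        rcases abs_cases u with ⟨h, _⟩ | ⟨h, _⟩
        · rw [h]
        · rw [h, K_even]
      rw [this]
      unfold K
      rw [← hz, Real.sinc_of_ne_zero hz0.ne']
    rw [h1, le_div_iff₀ hz0]
    refine le_trans (le_of_eq ?_) ((taylor m).2.2.2 z hz0.le)
    unfold Sn
    rw [Finset.sum_mul]
    refine Finset.sum_congr rfl fun j _ => ?_
    have h2 : (Real.pi ^ 2) ^ j * u ^ (2 * j) = z ^ (2 * j) := by
      rw [hz, mul_pow, pow_mul u, pow_mul |u|, sq_abs, pow_mul]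
    rw [pow_succ z, mul_assoc ((-1 : ℝ) ^ j), h2]
    ring

/-- lower bound for the square of the kernel -/
lemma Ksq_ge (m : ℕ) (u : ℝ) : ∑ j ∈ Finset.range (2 * m),
    (-1 : ℝ) ^ j * (4 * Real.pi ^ 2) ^ j * 2 * u ^ (2 * j) / ((2 * j + 2).factorial : ℝ) ≤
      K u ^ 2 := by
  have hpi := Real.pi_pos
  by_cases hu : u = 0
  · subst hu
    rw [K_zero]
    rcases Nat.eq_zero_or_pos (2 * m) with h | h
    · rw [h]; simp
    · obtain ⟨n, hn⟩ : ∃ n, 2 * m = n + 1 := ⟨2 * m - 1, by omega⟩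
      rw [hn, Finset.sum_range_succ']
      simp
  · set z := 2 * Real.pi * |u| with hz
    have hu' : 0 < |u| := abs_pos.2 hu
    have hz0 : 0 < z := by positivity
    have h1 : K u ^ 2 = 2 * (1 - Real.cos z) / z ^ 2 := by
      have : K u = K |u| := by
        rcases abs_cases u with ⟨h, _⟩ | ⟨h, _⟩
        · rw [h]
        · rw [h, K_even]
      rw [this]
      unfold K
      rw [Real.sinc_of_ne_zero (by positivity), div_pow, hz,
        show 2 * Real.pi * |u| = 2 * (Real.pi * |u|) by ring, Real.cos_two_mul,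
        Real.sin_sq]
      field_simp
      ring
    rw [h1, le_div_iff₀ (by positivity)]
    have h3 := (taylor m).1 z hz0.le
    have h4 : Cn (2 * m + 1) z = 1 - ∑ j ∈ Finset.range (2 * m),
        (-1 : ℝ) ^ j * z ^ (2 * j + 2) / ((2 * j + 2).factorial : ℝ) := by
      unfold Cn
      rw [Finset.sum_range_succ']
      simp only [mul_zero, pow_zero, Nat.factorial_zero, Nat.cast_one, div_one, mul_one]
      rw [add_comm, sub_eq_add_neg, ← Finset.sum_neg_distrib]
      congr 1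
      refine Finset.sum_congr rfl fun j _ => ?_
      rw [show 2 * (j + 1) = 2 * j + 2 by ring, pow_succ (-1 : ℝ)]
      ring
    rw [h4] at h3
    have h5 : (∑ j ∈ Finset.range (2 * m),
        (-1 : ℝ) ^ j * (4 * Real.pi ^ 2) ^ j * 2 * u ^ (2 * j) / ((2 * j + 2).factorial : ℝ)) *
          z ^ 2 = 2 * ∑ j ∈ Finset.range (2 * m),
        (-1 : ℝ) ^ j * z ^ (2 * j + 2) / ((2 * j + 2).factorial : ℝ) := by
      rw [Finset.sum_mul, Finset.mul_sum]
      refine Finset.sum_congr rfl fun j _ => ?_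
      have h2 : (4 * Real.pi ^ 2) ^ j * u ^ (2 * j) = z ^ (2 * j) := by
        rw [hz, pow_mul u, ← mul_pow, pow_mul]
        congr 1
        rw [mul_pow, mul_pow, sq_abs]
        ring
      rw [pow_add z (2 * j) 2]
      linear_combination (-1 : ℝ) ^ j * 2 * z ^ 2 / ((2 * j + 2).factorial : ℝ) * h2
    rw [h5]
    linarith

lemma int_even (j : ℕ) (t : ℝ) : ∫ x in (0 : ℝ)..t, (2 * x - t) ^ (2 * j) =
    t ^ (2 * j + 1) / (2 * j + 1) := by
  have h := intervalIntegral.integral_comp_mul_sub (a := 0) (b := t) (fun y => y ^ (2 * j))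
    (two_ne_zero (α := ℝ)) t
  rw [h, integral_pow]
  simp only [mul_zero, zero_sub, smul_eq_mul]
  have h2 : (-t) ^ (2 * j + 1) = -t ^ (2 * j + 1) := by
    rw [pow_succ, pow_mul, neg_sq, ← pow_mul, pow_succ]
    ring
  rw [h2, show 2 * t - t = t by ring]
  push_cast
  field_simp
  ring

lemma dbl_even (j : ℕ) (t : ℝ) : ∫ x in (0 : ℝ)..t, ∫ y in (0 : ℝ)..t, (x - y) ^ (2 * j) =
    2 * t ^ (2 * j + 2) / ((2 * j + 1) * (2 * j + 2)) := by
  have h1 : ∀ x : ℝ, ∫ y in (0 : ℝ)..t, (x - y) ^ (2 * j) =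
      (x ^ (2 * j + 1) - (x - t) ^ (2 * j + 1)) / (2 * j + 1) := by
    intro x
    rw [intervalIntegral.integral_comp_sub_left (fun y => y ^ (2 * j)) x, integral_pow]
    simp
  simp_rw [h1]
  rw [intervalIntegral.integral_div, intervalIntegral.integral_sub
    (Continuous.intervalIntegrable (by fun_prop) _ _)
    (Continuous.intervalIntegrable (by fun_prop) _ _), integral_pow,
    intervalIntegral.integral_comp_sub_right (fun y => y ^ (2 * j + 1)) t, integral_pow]
  have h2 : (0 - t) ^ (2 * j + 1 + 1) = t ^ (2 * j + 1 + 1) := by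
    rw [zero_sub, show 2 * j + 1 + 1 = 2 * (j + 1) by ring, pow_mul, neg_sq, ← pow_mul]
  rw [h2, sub_self]
  push_cast
  simp only [ne_eq, Nat.add_eq_zero_iff, one_ne_zero, and_false, not_false_eq_true, zero_pow,
    sub_zero, zero_sub]
  field_simp
  ring

/-- upper polynomial for `sg` -/
noncomputable def SU (n : ℕ) (p t : ℝ) : ℝ := ∑ j ∈ Finset.range n,
  (-1 : ℝ) ^ j * p ^ j * t ^ (2 * j + 1) / ((2 * j + 1).factorial * (2 * j + 1) : ℝ)

/-- lower polynomial for `QQ` -/
noncomputable def QL (n : ℕ) (p t : ℝ) : ℝ := ∑ j ∈ Finset.range n,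
  (-1 : ℝ) ^ j * (4 * p) ^ j * 4 * t ^ (2 * j + 2) /
    ((2 * j + 2).factorial * (2 * j + 1) * (2 * j + 2) : ℝ)

lemma sg_poly (n : ℕ) (t : ℝ) : ∫ x in (0 : ℝ)..t, (∑ j ∈ Finset.range n,
    (-1 : ℝ) ^ j * (Real.pi ^ 2) ^ j * (2 * x - t) ^ (2 * j) / ((2 * j + 1).factorial : ℝ)) =
    SU n (Real.pi ^ 2) t := by
  unfold SU
  rw [intervalIntegral.integral_finsetSum]
  · refine Finset.sum_congr rfl fun j _ => ?_
    rw [intervalIntegral.integral_div, intervalIntegral.integral_const_mul, int_even]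
    have : ((2 * j + 1).factorial : ℝ) ≠ 0 := by positivity
    field_simp
  · intro j _
    exact Continuous.intervalIntegrable (by fun_prop) _ _

lemma sg_le (m : ℕ) {t : ℝ} (ht : 0 ≤ t) : sg t ≤ SU (2 * m + 1) (Real.pi ^ 2) t := by
  unfold sg
  rw [← sg_poly]
  apply intervalIntegral.integral_mono_on ht (Continuous.intervalIntegrable (by fun_prop) _ _)
    (Continuous.intervalIntegrable (by fun_prop) _ _)
  intro x _
  exact K_le m _

lemma sg_ge (m : ℕ) {t : ℝ} (ht : 0 ≤ t) : SU (2 * m + 2) (Real.pi ^ 2) t ≤ sg t := by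
  unfold sg
  rw [← sg_poly]
  apply intervalIntegral.integral_mono_on ht (Continuous.intervalIntegrable (by fun_prop) _ _)
    (Continuous.intervalIntegrable (by fun_prop) _ _)
  intro x _
  exact K_ge m _

lemma QQ_poly (n : ℕ) (t : ℝ) : ∫ x in (0 : ℝ)..t, ∫ y in (0 : ℝ)..t, (∑ j ∈ Finset.range n,
    (-1 : ℝ) ^ j * (4 * Real.pi ^ 2) ^ j * 2 * (x - y) ^ (2 * j) / ((2 * j + 2).factorial : ℝ)) =
    QL n (Real.pi ^ 2) t := by
  unfold QL
  have h1 : ∀ x : ℝ, ∫ y in (0 : ℝ)..t, (∑ j ∈ Finset.range n,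
    (-1 : ℝ) ^ j * (4 * Real.pi ^ 2) ^ j * 2 * (x - y) ^ (2 * j) / ((2 * j + 2).factorial : ℝ)) =
    ∑ j ∈ Finset.range n, (-1 : ℝ) ^ j * (4 * Real.pi ^ 2) ^ j * 2 *
      (∫ y in (0 : ℝ)..t, (x - y) ^ (2 * j)) / ((2 * j + 2).factorial : ℝ) := by
    intro x
    rw [intervalIntegral.integral_finsetSum]
    · refine Finset.sum_congr rfl fun j _ => ?_
      rw [intervalIntegral.integral_div, intervalIntegral.integral_const_mul]
    · intro j _
      exact Continuous.intervalIntegrable (by fun_prop) _ _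
  simp_rw [h1]
  have hc : ∀ j : ℕ, Continuous fun x : ℝ => ∫ y in (0 : ℝ)..t, (x - y) ^ (2 * j) := fun j =>
    dbl_cont (fun x y => (x - y) ^ (2 * j)) (by fun_prop) 0 t
  rw [intervalIntegral.integral_finsetSum]
  · refine Finset.sum_congr rfl fun j _ => ?_
    rw [intervalIntegral.integral_div, intervalIntegral.integral_const_mul, dbl_even]
    have : ((2 * j + 2).factorial : ℝ) ≠ 0 := by positivity
    field_simp
    ring
  · intro j _
    exact (((hc j).const_mul _).div_const _).intervalIntegrable _ _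

lemma QQ_ge (m : ℕ) {t : ℝ} (ht : 0 ≤ t) : QL (2 * m) (Real.pi ^ 2) t ≤ QQ t := by
  unfold QQ
  rw [← QQ_poly]
  have hc1 : Continuous fun p : ℝ × ℝ => ∑ j ∈ Finset.range (2 * m),
    (-1 : ℝ) ^ j * (4 * Real.pi ^ 2) ^ j * 2 * (p.1 - p.2) ^ (2 * j) /
      ((2 * j + 2).factorial : ℝ) := by fun_prop
  have hc2 : Continuous fun p : ℝ × ℝ => K (p.1 - p.2) ^ 2 := by fun_prop
  apply intervalIntegral.integral_mono_on ht ((dbl_cont _ hc1 0 t).intervalIntegrable _ _)
    ((dbl_cont _ hc2 0 t).intervalIntegrable _ _)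
  intro x _
  apply intervalIntegral.integral_mono_on ht (Continuous.intervalIntegrable (by fun_prop) _ _)
    (Continuous.intervalIntegrable (by fun_prop) _ _)
  intro y _
  exact Ksq_ge m _

end Pool.Agent.E8helper28.RM
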