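import Mathlib

/-! Fischer's inequality for one row. -/

open Matrix Filter Topology

namespace Pool.Agent.E8helper28.RM

/-- one step of Hadamard's inequality, positive definite case -/
lemma fischer_pd {n : ℕ} (M : Matrix (Fin (n + 1)) (Fin (n + 1)) ℝ) (hM : M.PosDef) :
    M.det ≤ M 0 0 * (M.submatrix Fin.succ Fin.succ).det := by
  classical
  set e : Unit ⊕ Fin n ≃ Fin (n + 1) :=
    { toFun := Sum.elim (fun _ => 0) Fin.succ
      invFun := Fin.cases (Sum.inl ()) (fun i => Sum.inr i)
      left_inv := by
        rintro (u | i)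
        · rfl
        · simp
      right_inv := by
        intro i
        refine Fin.cases ?_ (fun j => ?_) i
        · rfl
        · simp } with he
  set A : Matrix Unit Unit ℝ := Matrix.of fun _ _ => M 0 0 with hA
  set B : Matrix Unit (Fin n) ℝ := Matrix.of fun _ j => M 0 j.succ with hB
  set D : Matrix (Fin n) (Fin n) ℝ := M.submatrix Fin.succ Fin.succ with hD
  have hsymm : ∀ i j, M i j = M j i := fun i j => by
    have := hM.1
    have h2 := congrFun (congrFun this j) i
    simpa using h2
  have hblock : M.submatrix e e = fromBlocks A B Bᴴ D := by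
    ext i j
    rcases i with u | i <;> rcases j with v | j
    · simp [he, hA]
    · simp [he, hB]
    · simp [he, hB, hsymm]
    · simp [he, hD]
  have hdet : M.det = (fromBlocks A B Bᴴ D).det := by
    rw [← hblock, det_submatrix_equiv_self]
  have hDpd : D.PosDef := hM.submatrix (Fin.succ_injective n)
  have hDu : IsUnit D.det := hDpd.det_pos.ne'.isUnit
  haveI : Invertible D := D.invertibleOfIsUnitDet hDu
  rw [hdet, det_fromBlocks₂₂]
  have h1 : (A - B * ⅟D * Bᴴ).det = M 0 0 - (B * ⅟D * Bᴴ) () () := by
    rw [det_unique]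
    simp [hA]
  rw [h1]
  have h2 : 0 ≤ (B * ⅟D * Bᴴ) () () := by
    have h3 : (B * D⁻¹ * Bᴴ).PosSemidef := hDpd.inv.posSemidef.mul_mul_conjTranspose_same B
    rw [invOf_eq_nonsing_inv]
    exact h3.diag_nonneg
  have h4 : 0 < D.det := hDpd.det_pos
  nlinarith

/-- one step of Hadamard's inequality -/
theorem fischer {n : ℕ} (M : Matrix (Fin (n + 1)) (Fin (n + 1)) ℝ) (hM : M.PosSemidef) :
    M.det ≤ M 0 0 * (M.submatrix Fin.succ Fin.succ).det := by
  have hc1 : Continuous fun ε : ℝ => (M + ε • (1 : Matrix (Fin (n + 1)) (Fin (n + 1)) ℝ)).det := by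
    apply Continuous.matrix_det
    fun_prop
  have hc2 : Continuous fun ε : ℝ =>
      (M + ε • (1 : Matrix (Fin (n + 1)) (Fin (n + 1)) ℝ)) 0 0 *
        ((M + ε • (1 : Matrix (Fin (n + 1)) (Fin (n + 1)) ℝ)).submatrix Fin.succ Fin.succ).det := by
    apply Continuous.mul
    · simp only [Matrix.add_apply, Matrix.smul_apply]
      fun_prop
    · apply Continuous.matrix_det
      apply Continuous.matrix_submatrix
      fun_prop
  have h1 := (hc1.tendsto 0).mono_left (nhdsWithin_le_nhds (s := Set.Ioi 0))
  have h2 := (hc2.tendsto 0).mono_left (nhdsWithin_le_nhds (s := Set.Ioi 0))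
  simp only [zero_smul, add_zero] at h1 h2
  refine le_of_tendsto_of_tendsto h1 h2 ?_
  filter_upwards [self_mem_nhdsWithin] with ε hε
  apply fischer_pd
  exact Matrix.PosDef.posSemidef_add hM (Matrix.PosDef.one.smul hε)

end Pool.Agent.E8helper28.RM
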