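import Pool.Agent.E8helper28.RM.Fisch

/-! Fredholm determinants of continuous positive semidefinite kernels on `[0, s]`: the first
Bonferroni inequalities. -/

open Matrix MeasureTheory Set Filter Topology

namespace Pool.Agent.E8helper28.RM

/-- the `n`-th Fredholm integral -/
noncomputable def J (k : ℝ → ℝ → ℝ) (s : ℝ) (n : ℕ) : ℝ :=
  ∫ x in Set.univ.pi (fun _ : Fin n => Set.Icc (0 : ℝ) s),
    (Matrix.of fun i j => k (x i) (x j)).det

/-- the Fredholm determinant `det (1 - k)` on `L²(0, s)` -/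
noncomputable def fred (k : ℝ → ℝ → ℝ) (s : ℝ) : ℝ :=
  ∑' n : ℕ, (-1 : ℝ) ^ n / (n.factorial : ℝ) * J k s n

/-- continuous positive semidefinite kernels -/
structure Good (k : ℝ → ℝ → ℝ) : Prop where
  cont : Continuous fun p : ℝ × ℝ => k p.1 p.2
  psd : ∀ (n : ℕ) (x : Fin n → ℝ), (Matrix.of fun i j => k (x i) (x j)).PosSemidef

variable {k : ℝ → ℝ → ℝ} {s : ℝ}

/-- the trace -/
noncomputable def tau (k : ℝ → ℝ → ℝ) (s : ℝ) : ℝ := ∫ x in Set.Icc (0 : ℝ) s, k x x

lemma J_pi (n : ℕ) : J k s n = ∫ x, (Matrix.of fun i j => k (x i) (x j)).det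
    ∂(Measure.pi fun _ : Fin n => volume.restrict (Set.Icc (0 : ℝ) s)) := by
  unfold J
  rw [← Measure.restrict_pi_pi]
  rfl

lemma cont_det (hk : Good k) (n : ℕ) :
    Continuous fun x : Fin n → ℝ => (Matrix.of fun i j => k (x i) (x j)).det := by
  apply Continuous.matrix_det
  refine continuous_matrix fun i j => ?_
  have h : Continuous fun x : Fin n → ℝ => (x i, x j) :=
    (continuous_apply i).prodMk (continuous_apply j)
  exact hk.cont.comp h

lemma det_nonneg (hk : Good k) (n : ℕ) (x : Fin n → ℝ) :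
    0 ≤ (Matrix.of fun i j => k (x i) (x j)).det := (hk.psd n x).det_nonneg

lemma diag_nonneg (hk : Good k) (x : ℝ) : 0 ≤ k x x := by
  have := (hk.psd 1 fun _ => x).diag_nonneg (i := 0)
  simpa using this

lemma J_nonneg (hk : Good k) (n : ℕ) : 0 ≤ J k s n :=
  integral_nonneg fun x => det_nonneg hk n x

lemma J_zero : J k s 0 = 1 := by
  rw [J_pi]
  simp [Measure.real, Measure.pi_univ]

lemma int_box (n : ℕ) (f : (Fin n → ℝ) → ℝ) (hf : Continuous f) :
    Integrable f (Measure.pi fun _ : Fin n => volume.restrict (Set.Icc (0 : ℝ) s)) := by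
  have h : IntegrableOn f (Set.univ.pi fun _ : Fin n => Set.Icc (0 : ℝ) s) volume :=
    hf.continuousOn.integrableOn_compact (isCompact_univ_pi fun _ => isCompact_Icc)
  unfold IntegrableOn at h
  rw [← Measure.restrict_pi_pi]
  exact h

lemma J_succ (n : ℕ) : J k s (n + 1) = ∫ p : ℝ × (Fin n → ℝ),
    (Matrix.of fun i j => k ((Fin.cons p.1 p.2 : Fin (n + 1) → ℝ) i)
      ((Fin.cons p.1 p.2 : Fin (n + 1) → ℝ) j)).det
    ∂((volume.restrict (Set.Icc (0 : ℝ) s)).prod
      (Measure.pi fun _ : Fin n => volume.restrict (Set.Icc (0 : ℝ) s))) := by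
  rw [J_pi]
  have h := measurePreserving_piFinSuccAbove
    (fun _ : Fin (n + 1) => volume.restrict (Set.Icc (0 : ℝ) s)) 0
  rw [← h.symm.integral_comp (MeasurableEquiv.measurableEmbedding _)]
  have e : ∀ p : ℝ × (Fin n → ℝ), (MeasurableEquiv.piFinSuccAbove (fun _ : Fin (n + 1) => ℝ) 0).symm p
      = (Fin.cons p.1 p.2 : Fin (n + 1) → ℝ) := by
    intro p
    ext i
    refine Fin.cases ?_ (fun j => ?_) i
    · simp [MeasurableEquiv.piFinSuccAbove]
    · simp [MeasurableEquiv.piFinSuccAbove]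
  simp only [e]

lemma J_succ_le (hk : Good k) (n : ℕ) : J k s (n + 1) ≤ tau k s * J k s n := by
  rw [J_succ, J_pi, tau, ← integral_prod_mul]
  have hc : Continuous fun p : ℝ × (Fin n → ℝ) => (Fin.cons p.1 p.2 : Fin (n + 1) → ℝ) := by
    refine continuous_pi fun i => ?_
    refine Fin.cases ?_ (fun j => ?_) i
    · simp only [Fin.cons_zero]
      exact continuous_fst
    · simp only [Fin.cons_succ]
      fun_prop
  have hI : ∀ f : ℝ × (Fin n → ℝ) → ℝ, Continuous f → Integrable f
      ((volume.restrict (Set.Icc (0 : ℝ) s)).prod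
      (Measure.pi fun _ : Fin n => volume.restrict (Set.Icc (0 : ℝ) s))) := by
    intro f hf
    have h : IntegrableOn f (Set.Icc (0 : ℝ) s ×ˢ (Set.univ.pi fun _ : Fin n => Set.Icc (0 : ℝ) s))
        (volume.prod volume) :=
      hf.continuousOn.integrableOn_compact
        (isCompact_Icc.prod (isCompact_univ_pi fun _ => isCompact_Icc))
    unfold IntegrableOn at h
    rw [← Measure.prod_restrict] at h
    rw [← Measure.restrict_pi_pi]
    exact h
  refine integral_mono (hI _ ((cont_det hk (n + 1)).comp hc)) (hI _ ?_) fun p => ?_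
  · refine Continuous.mul (hk.cont.comp (continuous_fst.prodMk continuous_fst)) ?_
    exact (cont_det hk n).comp continuous_snd
  · have h := fischer _ (hk.psd (n + 1) (Fin.cons p.1 p.2 : Fin (n + 1) → ℝ))
    exact h

lemma J_one : J k s 1 = tau k s := by
  rw [J_pi]
  have h := measurePreserving_funUnique (volume.restrict (Set.Icc (0 : ℝ) s)) (Fin 1)
  rw [tau, ← h.integral_comp (MeasurableEquiv.measurableEmbedding _)]
  congr 1
  ext x
  rw [det_unique]
  rfl

lemma tau_nonneg (hk : Good k) : 0 ≤ tau k s := integral_nonneg fun x => diag_nonneg hk x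

lemma J_two (hk : Good k) : J k s 2 = tau k s ^ 2 -
    ∫ x in Set.Icc (0 : ℝ) s, ∫ y in Set.Icc (0 : ℝ) s, k x y * k y x := by
  have hI : ∀ f : ℝ × ℝ → ℝ, Continuous f → Integrable f
      ((volume.restrict (Set.Icc (0 : ℝ) s)).prod (volume.restrict (Set.Icc (0 : ℝ) s))) := by
    intro f hf
    have h : IntegrableOn f (Set.Icc (0 : ℝ) s ×ˢ Set.Icc (0 : ℝ) s) (volume.prod volume) :=
      hf.continuousOn.integrableOn_compact (isCompact_Icc.prod isCompact_Icc)
    unfold IntegrableOn at h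
    rw [← Measure.prod_restrict] at h
    exact h
  have h := measurePreserving_finTwoArrow (volume.restrict (Set.Icc (0 : ℝ) s))
  have h1 : J k s 2 = ∫ p : ℝ × ℝ, (k p.1 p.1 * k p.2 p.2 - k p.1 p.2 * k p.2 p.1)
      ∂((volume.restrict (Set.Icc (0 : ℝ) s)).prod (volume.restrict (Set.Icc (0 : ℝ) s))) := by
    rw [J_pi, ← h.integral_comp (MeasurableEquiv.measurableEmbedding _)]
    congr 1
    ext x
    rw [det_fin_two]
    rfl
  have c1 : Continuous fun p : ℝ × ℝ => k p.1 p.1 * k p.2 p.2 :=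
    (hk.cont.comp (continuous_fst.prodMk continuous_fst)).mul
      (hk.cont.comp (continuous_snd.prodMk continuous_snd))
  have c2 : Continuous fun p : ℝ × ℝ => k p.1 p.2 * k p.2 p.1 :=
    hk.cont.mul (hk.cont.comp (continuous_snd.prodMk continuous_fst))
  rw [h1, integral_sub (hI _ c1) (hI _ c2), integral_prod_mul (fun x => k x x) (fun y => k y y),
    integral_prod _ (hI _ c2)]
  unfold tau
  rw [pow_two]

/-- `a n = J n / n!` -/
noncomputable def aa (k : ℝ → ℝ → ℝ) (s : ℝ) (n : ℕ) : ℝ := J k s n / (n.factorial : ℝ)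

lemma aa_nonneg (hk : Good k) (n : ℕ) : 0 ≤ aa k s n := by
  unfold aa
  have := J_nonneg (s := s) hk n
  positivity

lemma aa_succ_le (hk : Good k) (n : ℕ) : aa k s (n + 1) ≤ tau k s / (n + 1) * aa k s n := by
  unfold aa
  have h := J_succ_le (s := s) hk n
  rw [Nat.factorial_succ]
  push_cast
  have hn : (0 : ℝ) < (n : ℝ) + 1 := by positivity
  have hf : (0 : ℝ) < (n.factorial : ℝ) := by positivity
  rw [div_mul_div_comm, div_le_div_iff_of_pos_right (by positivity)]
  exact h

lemma aa_le (hk : Good k) (n : ℕ) : aa k s n ≤ tau k s ^ n / (n.factorial : ℝ) := by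
  induction n with
  | zero => unfold aa; rw [J_zero]; simp
  | succ n ih =>
    refine (aa_succ_le hk n).trans ?_
    have h0 := tau_nonneg (s := s) hk
    calc tau k s / (n + 1) * aa k s n ≤ tau k s / (n + 1) * (tau k s ^ n / (n.factorial : ℝ)) := by
          gcongr
      _ = _ := by
          rw [Nat.factorial_succ]
          push_cast
          field_simp
          ring

lemma summ_aa (hk : Good k) : Summable (aa k s) :=
  Summable.of_nonneg_of_le (aa_nonneg hk) (aa_le hk) (Real.summable_pow_div_factorial _)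

lemma fred_eq : fred k s = ∑' n : ℕ, (-1 : ℝ) ^ n * aa k s n := by
  unfold fred aa
  congr 1
  ext n
  ring

lemma summ_alt (hk : Good k) : Summable fun n => (-1 : ℝ) ^ n * aa k s n := by
  refine Summable.of_norm_bounded (summ_aa (s := s) hk) fun n => ?_
  rw [norm_mul, norm_pow, norm_neg, norm_one, one_pow, one_mul, Real.norm_of_nonneg (aa_nonneg hk n)]

/-- alternating tails -/
lemma alt_tail {a : ℕ → ℝ} (ha : ∀ n, 0 ≤ a n) (hs : Summable a) (hmono : ∀ n, a (n + 1) ≤ a n) :
    0 ≤ ∑' n : ℕ, (-1 : ℝ) ^ n * a n ∧ ∑' n : ℕ, (-1 : ℝ) ^ n * a n ≤ a 0 := by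
  have hS : ∀ b : ℕ → ℝ, (∀ n, 0 ≤ b n) → Summable b → (∀ n, b (n + 1) ≤ b n) →
      0 ≤ ∑' n : ℕ, (-1 : ℝ) ^ n * b n := by
    intro b hb hsb hm
    have hsum : Summable fun n => (-1 : ℝ) ^ n * b n := by
      refine Summable.of_norm_bounded hsb fun n => ?_
      rw [norm_mul, norm_pow, norm_neg, norm_one, one_pow, one_mul, Real.norm_of_nonneg (hb n)]
    have he : Summable fun n => (-1 : ℝ) ^ (2 * n) * b (2 * n) :=
      hsum.comp_injective (i := fun n : ℕ => 2 * n) (fun a b h => by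
        have h' : 2 * a = 2 * b := h
        omega)
    have ho : Summable fun n => (-1 : ℝ) ^ (2 * n + 1) * b (2 * n + 1) :=
      hsum.comp_injective (i := fun n : ℕ => 2 * n + 1) (fun a b h => by
        have h' : 2 * a + 1 = 2 * b + 1 := h
        omega)
    rw [← tsum_even_add_odd he ho, ← he.tsum_add ho]
    refine tsum_nonneg fun n => ?_
    have h1 := hm (2 * n)
    rw [pow_succ, pow_mul]
    norm_num
    linarith
  refine ⟨hS a ha hs hmono, ?_⟩
  have hsum : Summable fun n => (-1 : ℝ) ^ n * a n := by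
    refine Summable.of_norm_bounded hs fun n => ?_
    rw [norm_mul, norm_pow, norm_neg, norm_one, one_pow, one_mul, Real.norm_of_nonneg (ha n)]
  have h1 := hsum.sum_add_tsum_nat_add 1
  rw [← h1]
  have h2 := hS (fun n => a (n + 1)) (fun n => ha _) ((summable_nat_add_iff 1).2 hs)
    (fun n => hmono _)
  have h3 : ∑' n : ℕ, (-1 : ℝ) ^ (n + 1) * a (n + 1) = -∑' n : ℕ, (-1 : ℝ) ^ n * a (n + 1) := by
    rw [← tsum_neg]
    congr 1
    ext n
    ring
  rw [h3]
  simp
  exact h2

/-- Bonferroni: `det ≥ 1 - τ` if `τ ≤ 3` and `det ≤ 1 - τ + a₂` if `τ ≤ 4` -/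
theorem bonferroni (hk : Good k) (h3 : tau k s ≤ 3) :
    1 - tau k s ≤ fred k s ∧ fred k s ≤ 1 - tau k s + J k s 2 / 2 := by
  have h0 := tau_nonneg (s := s) hk
  have hS := summ_alt (s := s) hk
  have e0 : aa k s 0 = 1 := by unfold aa; rw [J_zero]; simp
  have e1 : aa k s 1 = tau k s := by unfold aa; rw [J_one]; simp
  have e2 : aa k s 2 = J k s 2 / 2 := by unfold aa; norm_num [Nat.factorial]
  have hmono : ∀ m : ℕ, 2 ≤ m → aa k s (m + 1) ≤ aa k s m := by
    intro m hm
    refine (aa_succ_le hk m).trans ?_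
    have h4 : tau k s / (m + 1) ≤ 1 := by
      rw [div_le_one (by positivity)]
      have : (2 : ℝ) ≤ m := by exact_mod_cast hm
      linarith
    have := aa_nonneg (s := s) hk m
    nlinarith
  have key : ∀ m : ℕ, 2 ≤ m → 0 ≤ ∑' n : ℕ, (-1 : ℝ) ^ n * aa k s (n + m) ∧
      ∑' n : ℕ, (-1 : ℝ) ^ n * aa k s (n + m) ≤ aa k s (0 + m) := fun m hm =>
    alt_tail (a := fun n => aa k s (n + m)) (fun n => aa_nonneg hk _)
      ((summable_nat_add_iff m).2 (summ_aa hk)) (fun n => by
        have := hmono (n + m) (by omega)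
        convert this using 2
        ring)
  have h2 := hS.sum_add_tsum_nat_add 2
  have h5 : ∑' n : ℕ, (-1 : ℝ) ^ (n + 2) * aa k s (n + 2) =
      ∑' n : ℕ, (-1 : ℝ) ^ n * aa k s (n + 2) := by
    congr 1
    ext n
    rw [pow_add]
    norm_num
  rw [h5] at h2
  rw [fred_eq, ← h2]
  simp only [Finset.sum_range_succ, Finset.sum_range_zero, pow_zero, pow_one, e0, e1]
  obtain ⟨k1, k2⟩ := key 2 le_rfl
  rw [zero_add, e2] at k2
  constructor <;> linarith

end Pool.Agent.E8helper28.RM
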