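import Pool.Agent.E8helper28.RM.Num

/-! Numerical values of the void probabilities of the GOE and the GSE. -/

open Finset

namespace Pool.Agent.E8helper28.RM

lemma SU_num (n : ℕ) {p lo hi t : ℝ} (hlo : 0 ≤ lo) (h1 : lo ≤ p) (h2 : p ≤ hi) (ht : 0 ≤ t) :
    SU n p t ≤ ∑ j ∈ range n, (if j % 2 = 0 then hi ^ j else -lo ^ j) * t ^ (2 * j + 1) /
      ((2 * j + 1).factorial * (2 * j + 1) : ℝ) := by
  unfold SU
  refine sum_le_sum fun j _ => ?_
  apply div_le_div_of_nonneg_right _ (by positivity)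
  apply mul_le_mul_of_nonneg_right _ (by positivity)
  split_ifs with h
  · have : Even j := Nat.even_iff.2 h
    rw [this.neg_one_pow, one_mul]
    exact pow_le_pow_left₀ (by linarith) h2 j
  · have : Odd j := Nat.odd_iff.2 (by omega)
    rw [this.neg_one_pow, neg_one_mul]
    exact neg_le_neg (pow_le_pow_left₀ hlo h1 j)

lemma SU_num' (n : ℕ) {p lo hi t : ℝ} (hlo : 0 ≤ lo) (h1 : lo ≤ p) (h2 : p ≤ hi) (ht : 0 ≤ t) :
    ∑ j ∈ range n, (if j % 2 = 0 then lo ^ j else -hi ^ j) * t ^ (2 * j + 1) /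
      ((2 * j + 1).factorial * (2 * j + 1) : ℝ) ≤ SU n p t := by
  unfold SU
  refine sum_le_sum fun j _ => ?_
  apply div_le_div_of_nonneg_right _ (by positivity)
  apply mul_le_mul_of_nonneg_right _ (by positivity)
  split_ifs with h
  · have : Even j := Nat.even_iff.2 h
    rw [this.neg_one_pow, one_mul]
    exact pow_le_pow_left₀ hlo h1 j
  · have : Odd j := Nat.odd_iff.2 (by omega)
    rw [this.neg_one_pow, neg_one_mul]
    exact neg_le_neg (pow_le_pow_left₀ (by linarith) h2 j)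

lemma QL_num (n : ℕ) {p lo hi t : ℝ} (hlo : 0 ≤ lo) (h1 : lo ≤ p) (h2 : p ≤ hi) (ht : 0 ≤ t) :
    ∑ j ∈ range n, (if j % 2 = 0 then (4 * lo) ^ j else -(4 * hi) ^ j) * 4 * t ^ (2 * j + 2) /
      ((2 * j + 2).factorial * (2 * j + 1) * (2 * j + 2) : ℝ) ≤ QL n p t := by
  unfold QL
  refine sum_le_sum fun j _ => ?_
  apply div_le_div_of_nonneg_right _ (by positivity)
  apply mul_le_mul_of_nonneg_right _ (by positivity)
  apply mul_le_mul_of_nonneg_right _ (by norm_num)
  split_ifs with h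
  · have : Even j := Nat.even_iff.2 h
    rw [this.neg_one_pow, one_mul]
    exact pow_le_pow_left₀ (by positivity) (by linarith) j
  · have : Odd j := Nat.odd_iff.2 (by omega)
    rw [this.neg_one_pow, neg_one_mul]
    exact neg_le_neg (pow_le_pow_left₀ (by linarith) (by linarith) j)

/-- lower end for `π²` -/
noncomputable def plo : ℝ := 98696044 / 10000000
/-- upper end for `π²` -/
noncomputable def phi : ℝ := 98696045 / 10000000

lemma plo_nonneg : 0 ≤ plo := by unfold plo; norm_num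

lemma plo_le : plo ≤ Real.pi ^ 2 := by
  have h := Real.pi_gt_d20
  unfold plo
  nlinarith

lemma le_phi : Real.pi ^ 2 ≤ phi := by
  have h := Real.pi_lt_d20
  have h0 := Real.pi_pos
  unfold phi
  nlinarith

lemma sg_two : 0 ≤ sg 2 ∧ sg 2 ≤ 0.45142 := by
  constructor
  · refine le_trans ?_ (sg_ge 5 (by norm_num))
    refine le_trans ?_ (SU_num' _ plo_nonneg plo_le le_phi (by norm_num))
    unfold plo phi
    norm_num [sum_range_succ, Nat.factorial]
  · refine (sg_le 5 (by norm_num)).trans ?_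
    refine (SU_num _ plo_nonneg plo_le le_phi (by norm_num)).trans ?_
    unfold plo phi
    norm_num [sum_range_succ, Nat.factorial]

lemma QQ_two : 1.5843 ≤ QQ 2 := by
  refine le_trans ?_ (QQ_ge 8 (by norm_num))
  refine le_trans ?_ (QL_num _ plo_nonneg plo_le le_phi (by norm_num))
  unfold plo phi
  norm_num [sum_range_succ, Nat.factorial]

lemma sg_16 : 0 ≤ sg (8 / 5) ∧ sg (8 / 5) ≤ 0.49176 := by
  constructor
  · refine le_trans ?_ (sg_ge 5 (by norm_num))
    refine le_trans ?_ (SU_num' _ plo_nonneg plo_le le_phi (by norm_num))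
    unfold plo phi
    norm_num [sum_range_succ, Nat.factorial]
  · refine (sg_le 5 (by norm_num)).trans ?_
    refine (SU_num _ plo_nonneg plo_le le_phi (by norm_num)).trans ?_
    unfold plo phi
    norm_num [sum_range_succ, Nat.factorial]

lemma QQ_16 : 1.2054 ≤ QQ (8 / 5) := by
  refine le_trans ?_ (QQ_ge 7 (by norm_num))
  refine le_trans ?_ (QL_num _ plo_nonneg plo_le le_phi (by norm_num))
  unfold plo phi
  norm_num [sum_range_succ, Nat.factorial]

lemma sg_12 : 0 ≤ sg (6 / 5) ∧ sg (6 / 5) ≤ 0.57238 := by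
  constructor
  · refine le_trans ?_ (sg_ge 4 (by norm_num))
    refine le_trans ?_ (SU_num' _ plo_nonneg plo_le le_phi (by norm_num))
    unfold plo phi
    norm_num [sum_range_succ, Nat.factorial]
  · refine (sg_le 4 (by norm_num)).trans ?_
    refine (SU_num _ plo_nonneg plo_le le_phi (by norm_num)).trans ?_
    unfold plo phi
    norm_num [sum_range_succ, Nat.factorial]

lemma QQ_12 : 0.8366 ≤ QQ (6 / 5) := by
  refine le_trans ?_ (QQ_ge 6 (by norm_num))
  refine le_trans ?_ (QL_num _ plo_nonneg plo_le le_phi (by norm_num))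
  unfold plo phi
  norm_num [sum_range_succ, Nat.factorial]

lemma sg_one : sg 1 ≤ 0.5895 := by
  refine (sg_le 4 (by norm_num)).trans ?_
  refine (SU_num _ plo_nonneg plo_le le_phi (by norm_num)).trans ?_
  unfold plo phi
  norm_num [sum_range_succ, Nat.factorial]

/-- the GOE value -/
theorem EG1_one : 0.20525 ≤ EG1 1 := by
  have h := EG1_ge (t := 1) (by norm_num) (by norm_num)
  have h2 := sg_one
  norm_num at h h2 ⊢
  linarith

theorem EG4_one : EG4 1 ≤ 0.1295 := by
  have h := EG4_le (t := 1) (by norm_num) (by norm_num)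
  obtain ⟨h1, h2⟩ := sg_two
  have h3 := QQ_two
  norm_num at h h1 h2 h3 ⊢
  nlinarith

theorem EG4_08 : EG4 (4 / 5) - 1 + 4 / 5 ≤ 0.0489 := by
  have h := EG4_le (t := 4 / 5) (by norm_num) (by norm_num)
  obtain ⟨h1, h2⟩ := sg_16
  have h3 := QQ_16
  rw [show (2 : ℝ) * (4 / 5) = 8 / 5 by norm_num] at h
  norm_num at h h1 h2 h3 ⊢
  nlinarith

theorem EG4_06 : EG4 (3 / 5) - 1 + 3 / 5 ≤ 0.0119 := by
  have h := EG4_le (t := 3 / 5) (by norm_num) (by norm_num)
  obtain ⟨h1, h2⟩ := sg_12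
  have h3 := QQ_12
  rw [show (2 : ℝ) * (3 / 5) = 6 / 5 by norm_num] at h
  norm_num at h h1 h2 h3 ⊢
  nlinarith

end Pool.Agent.E8helper28.RM
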