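import Mathlib

/-! Taylor bounds of all orders for cosine and sine. -/

namespace Pool.Agent.E8helper28.RM

lemma le_of_deriv_le {F G F' G' : ℝ → ℝ} (hF : ∀ x, HasDerivAt F (F' x) x)
    (hG : ∀ x, HasDerivAt G (G' x) x) (h0 : F 0 ≤ G 0) (h : ∀ x, 0 ≤ x → F' x ≤ G' x) (x : ℝ)
    (hx : 0 ≤ x) : F x ≤ G x := by
  have hm : MonotoneOn (fun x => G x - F x) (Set.Ici 0) := by
    apply monotoneOn_of_deriv_nonneg (convex_Ici 0)
    · exact fun x _ => ((hG x).fun_sub (hF x)).continuousAt.continuousWithinAt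
    · exact fun x _ => ((hG x).fun_sub (hF x)).differentiableAt.differentiableWithinAt
    · intro x hx
      rw [interior_Ici] at hx
      rw [((hG x).fun_sub (hF x)).deriv]
      have := h x (le_of_lt hx)
      linarith
  have := hm (Set.mem_Ici.2 le_rfl) (Set.mem_Ici.2 hx) hx
  simp only at this
  linarith

/-- partial sums of the cosine series -/
noncomputable def Cn (n : ℕ) (x : ℝ) : ℝ :=
  ∑ j ∈ Finset.range n, (-1 : ℝ) ^ j * x ^ (2 * j) / ((2 * j).factorial : ℝ)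

/-- partial sums of the sine series -/
noncomputable def Sn (n : ℕ) (x : ℝ) : ℝ :=
  ∑ j ∈ Finset.range n, (-1 : ℝ) ^ j * x ^ (2 * j + 1) / ((2 * j + 1).factorial : ℝ)

lemma hasDeriv_Sn (n : ℕ) (x : ℝ) : HasDerivAt (Sn n) (Cn n x) x := by
  unfold Sn Cn
  apply HasDerivAt.fun_sum
  intro j _
  have h := ((hasDerivAt_pow (2 * j + 1) x).const_mul ((-1 : ℝ) ^ j)).div_const
    ((2 * j + 1).factorial : ℝ)
  refine h.congr_deriv ?_
  rw [Nat.factorial_succ]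
  push_cast
  have h1 : ((2 * j).factorial : ℝ) ≠ 0 := by positivity
  have h2 : (2 * (j : ℝ) + 1) ≠ 0 := by positivity

  field_simp

lemma hasDeriv_Cn (n : ℕ) (x : ℝ) : HasDerivAt (Cn (n + 1)) (-Sn n x) x := by
  unfold Sn Cn
  have h0 : (fun x : ℝ => ∑ j ∈ Finset.range (n + 1), (-1 : ℝ) ^ j * x ^ (2 * j) /
      ((2 * j).factorial : ℝ)) = fun x : ℝ => (∑ j ∈ Finset.range n,
        (-1 : ℝ) ^ (j + 1) * x ^ (2 * (j + 1)) / ((2 * (j + 1)).factorial : ℝ)) + 1 := by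
    ext x
    rw [Finset.sum_range_succ']
    simp
  rw [h0, ← Finset.sum_neg_distrib]
  apply HasDerivAt.add_const
  apply HasDerivAt.fun_sum
  intro j _
  have h := ((hasDerivAt_pow (2 * (j + 1)) x).const_mul ((-1 : ℝ) ^ (j + 1))).div_const
    ((2 * (j + 1)).factorial : ℝ)
  refine h.congr_deriv ?_
  have e : 2 * (j + 1) = (2 * j + 1) + 1 := by ring
  rw [e, Nat.factorial_succ]
  push_cast
  have h1 : ((2 * j + 1).factorial : ℝ) ≠ 0 := by positivity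
  have h2 : (2 * (j : ℝ) + 1 + 1) ≠ 0 := by positivity

  field_simp
  ring

lemma taylor (n : ℕ) : (∀ x : ℝ, 0 ≤ x → Real.cos x ≤ Cn (2 * n + 1) x) ∧
    (∀ x : ℝ, 0 ≤ x → Real.sin x ≤ Sn (2 * n + 1) x) ∧
    (∀ x : ℝ, 0 ≤ x → Cn (2 * n + 2) x ≤ Real.cos x) ∧
    (∀ x : ℝ, 0 ≤ x → Sn (2 * n + 2) x ≤ Real.sin x) := by
  have C0 : ∀ m : ℕ, Cn (m + 1) 0 = 1 := by
    intro m
    unfold Cn
    rw [Finset.sum_range_succ']
    simp
  have S0 : ∀ m : ℕ, Sn m 0 = 0 := by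
    intro m
    unfold Sn
    simp
  have sin_of : ∀ m : ℕ, (∀ x : ℝ, 0 ≤ x → Real.cos x ≤ Cn m x) →
      ∀ x : ℝ, 0 ≤ x → Real.sin x ≤ Sn m x := fun m h x hx =>
    le_of_deriv_le (fun x => Real.hasDerivAt_sin x) (fun x => hasDeriv_Sn m x) (by simp [S0]) h x hx
  have sin_of' : ∀ m : ℕ, (∀ x : ℝ, 0 ≤ x → Cn m x ≤ Real.cos x) →
      ∀ x : ℝ, 0 ≤ x → Sn m x ≤ Real.sin x := fun m h x hx =>
    le_of_deriv_le (fun x => hasDeriv_Sn m x) (fun x => Real.hasDerivAt_sin x) (by simp [S0]) h x hx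
  have cos_of : ∀ m : ℕ, (∀ x : ℝ, 0 ≤ x → Real.sin x ≤ Sn m x) →
      ∀ x : ℝ, 0 ≤ x → Cn (m + 1) x ≤ Real.cos x := fun m h x hx =>
    le_of_deriv_le (fun x => hasDeriv_Cn m x) (fun x => Real.hasDerivAt_cos x) (by simp [C0])
      (fun x hx => neg_le_neg (h x hx)) x hx
  have cos_of' : ∀ m : ℕ, (∀ x : ℝ, 0 ≤ x → Sn m x ≤ Real.sin x) →
      ∀ x : ℝ, 0 ≤ x → Real.cos x ≤ Cn (m + 1) x := fun m h x hx =>
    le_of_deriv_le (fun x => Real.hasDerivAt_cos x) (fun x => hasDeriv_Cn m x) (by simp [C0])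
      (fun x hx => neg_le_neg (h x hx)) x hx
  have all : ∀ c : ∀ x : ℝ, 0 ≤ x → Real.cos x ≤ Cn (2 * n + 1) x,
      (∀ x : ℝ, 0 ≤ x → Real.cos x ≤ Cn (2 * n + 1) x) ∧
      (∀ x : ℝ, 0 ≤ x → Real.sin x ≤ Sn (2 * n + 1) x) ∧
      (∀ x : ℝ, 0 ≤ x → Cn (2 * n + 2) x ≤ Real.cos x) ∧
      (∀ x : ℝ, 0 ≤ x → Sn (2 * n + 2) x ≤ Real.sin x) := fun c =>
    ⟨c, sin_of _ c, cos_of _ (sin_of _ c), sin_of' _ (cos_of _ (sin_of _ c))⟩
  apply all
  clear all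
  induction n with
  | zero =>
    intro x _
    have : Cn 1 x = 1 := by unfold Cn; simp
    rw [mul_zero, zero_add, this]
    exact Real.cos_le_one x
  | succ n ih =>
    have h1 := cos_of _ (sin_of _ ih)
    have h2 := cos_of' _ (sin_of' _ h1)
    have e : 2 * (n + 1) + 1 = 2 * n + 1 + 1 + 1 := by ring
    rw [e]
    exact h2

end Pool.Agent.E8helper28.RM
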