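import Pool.Agent.E8helper28.RM.Fred
import Pool.Agent.E8helper28.RM.Tay

/-! The even and odd parts of the sine kernel. -/

open Matrix MeasureTheory Set Filter Topology

namespace Pool.Agent.E8helper28.RM

/-- the sine kernel -/
noncomputable def K (x : ℝ) : ℝ := Real.sinc (Real.pi * x)

/-- even part on `(0, t)` -/
noncomputable def kp (t x y : ℝ) : ℝ := (K (x - y) + K (x + y - t)) / 2

/-- odd part on `(0, t)` -/
noncomputable def km (t x y : ℝ) : ℝ := (K (x - y) - K (x + y - t)) / 2

@[fun_prop]
lemma K_cont : Continuous K := by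
  unfold K
  exact Real.continuous_sinc.comp (by fun_prop)

lemma K_even (x : ℝ) : K (-x) = K x := by
  unfold K
  rw [mul_neg, Real.sinc_neg]

lemma K_zero : K 0 = 1 := by
  unfold K
  simp

lemma K_int (u : ℝ) : K u = ∫ ξ in (0 : ℝ)..1, Real.cos (Real.pi * u * ξ) := by
  unfold K
  by_cases hu : u = 0
  · subst hu
    simp
  · have hpi := Real.pi_pos
    have h : Real.pi * u ≠ 0 := mul_ne_zero hpi.ne' hu
    rw [Real.sinc_of_ne_zero h, intervalIntegral.integral_comp_mul_left (fun y => Real.cos y) h,
      integral_cos]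
    simp
    field_simp

lemma good_of_int (φ : ℝ → ℝ → ℝ) (hφ : Continuous fun p : ℝ × ℝ => φ p.1 p.2) (k : ℝ → ℝ → ℝ)
    (hk : Continuous fun p : ℝ × ℝ => k p.1 p.2)
    (h : ∀ x y, k x y = ∫ ξ in (0 : ℝ)..1, φ ξ x * φ ξ y) : Good k := by
  refine ⟨hk, fun n x => ?_⟩
  rw [Matrix.posSemidef_iff_dotProduct_mulVec]
  have hc : ∀ y, Continuous fun ξ => φ ξ y := fun y => by
    have h : Continuous fun ξ : ℝ => (ξ, y) := by fun_prop
    exact hφ.comp h
  constructor
  · ext i j
    simp only [conjTranspose_apply, of_apply, star_trivial]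
    rw [h, h]
    congr 1
    ext ξ
    ring
  · intro v
    have e : star v ⬝ᵥ ((of fun i j => k (x i) (x j)) *ᵥ v) =
        ∫ ξ in (0 : ℝ)..1, (∑ i, v i * φ ξ (x i)) ^ 2 := by
      have e1 : ∀ ξ, (∑ i, v i * φ ξ (x i)) ^ 2 =
          ∑ i, ∑ j, v i * v j * (φ ξ (x i) * φ ξ (x j)) := by
        intro ξ
        rw [pow_two, Finset.sum_mul_sum]
        refine Finset.sum_congr rfl fun i _ => Finset.sum_congr rfl fun j _ => ?_
        ring
      simp_rw [e1]
      rw [intervalIntegral.integral_finsetSum]
      · simp only [dotProduct, mulVec, star_trivial, of_apply]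
        refine Finset.sum_congr rfl fun i _ => ?_
        rw [intervalIntegral.integral_finsetSum, Finset.mul_sum]
        · refine Finset.sum_congr rfl fun j _ => ?_
          rw [intervalIntegral.integral_const_mul, ← h]
          ring
        · intro j _
          exact (((hc _).mul (hc _)).const_mul _).intervalIntegrable _ _
      · intro i _
        apply Continuous.intervalIntegrable
        refine continuous_finset_sum _ fun j _ => ?_
        exact ((hc _).mul (hc _)).const_mul _
    rw [e]
    apply intervalIntegral.integral_nonneg zero_le_one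
    intro ξ _
    positivity

lemma good_kp (t : ℝ) : Good (kp t) := by
  refine good_of_int (fun ξ x => Real.cos (Real.pi * ξ * (x - t / 2))) (by fun_prop) _ ?_ ?_
  · unfold kp
    fun_prop
  · intro x y
    unfold kp
    rw [K_int, K_int, ← intervalIntegral.integral_add, ← intervalIntegral.integral_div]
    · congr 1
      ext ξ
      have h := Real.cos_add_cos (Real.pi * (x - y) * ξ) (Real.pi * (x + y - t) * ξ)
      rw [h]
      have e1 : (Real.pi * (x - y) * ξ + Real.pi * (x + y - t) * ξ) / 2 =
          Real.pi * ξ * (x - t / 2) := by ring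
      have e2 : (Real.pi * (x - y) * ξ - Real.pi * (x + y - t) * ξ) / 2 =
          -(Real.pi * ξ * (y - t / 2)) := by ring
      rw [e1, e2, Real.cos_neg]
      ring
    · exact Continuous.intervalIntegrable (by fun_prop) _ _
    · exact Continuous.intervalIntegrable (by fun_prop) _ _

lemma good_km (t : ℝ) : Good (km t) := by
  refine good_of_int (fun ξ x => Real.sin (Real.pi * ξ * (x - t / 2))) (by fun_prop) _ ?_ ?_
  · unfold km
    fun_prop
  · intro x y
    unfold km
    rw [K_int, K_int, ← intervalIntegral.integral_sub, ← intervalIntegral.integral_div]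
    · congr 1
      ext ξ
      have h := Real.cos_sub_cos (Real.pi * (x - y) * ξ) (Real.pi * (x + y - t) * ξ)
      rw [h]
      have e1 : (Real.pi * (x - y) * ξ + Real.pi * (x + y - t) * ξ) / 2 =
          Real.pi * ξ * (x - t / 2) := by ring
      have e2 : (Real.pi * (x - y) * ξ - Real.pi * (x + y - t) * ξ) / 2 =
          -(Real.pi * ξ * (y - t / 2)) := by ring
      rw [e1, e2, Real.sin_neg]
      ring
    · exact Continuous.intervalIntegrable (by fun_prop) _ _
    · exact Continuous.intervalIntegrable (by fun_prop) _ _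

/-- `Si(π t)/π` -/
noncomputable def sg (t : ℝ) : ℝ := ∫ x in (0 : ℝ)..t, K (2 * x - t)

/-- the Hilbert-Schmidt norm squared of the sine kernel -/
noncomputable def QQ (t : ℝ) : ℝ := ∫ x in (0 : ℝ)..t, ∫ y in (0 : ℝ)..t, K (x - y) ^ 2

lemma Icc_int {t : ℝ} (ht : 0 ≤ t) (f : ℝ → ℝ) :
    ∫ x in Set.Icc (0 : ℝ) t, f x = ∫ x in (0 : ℝ)..t, f x := by
  rw [integral_Icc_eq_integral_Ioc, intervalIntegral.integral_of_le ht]

lemma tau_kp {t : ℝ} (ht : 0 ≤ t) : tau (kp t) t = (t + sg t) / 2 := by
  unfold tau
  rw [Icc_int ht]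
  have e : ∀ x, kp t x x = 1 / 2 + K (2 * x - t) / 2 := by
    intro x
    unfold kp
    rw [sub_self, K_zero, ← two_mul]
    ring
  simp_rw [e]
  rw [intervalIntegral.integral_add (by simp) (Continuous.intervalIntegrable (by fun_prop) _ _),
    intervalIntegral.integral_const, intervalIntegral.integral_div]
  unfold sg
  simp
  ring

lemma tau_km {t : ℝ} (ht : 0 ≤ t) : tau (km t) t = (t - sg t) / 2 := by
  unfold tau
  rw [Icc_int ht]
  have e : ∀ x, km t x x = 1 / 2 - K (2 * x - t) / 2 := by
    intro x
    unfold km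
    rw [sub_self, K_zero, ← two_mul]
    ring
  simp_rw [e]
  rw [intervalIntegral.integral_sub (by simp) (Continuous.intervalIntegrable (by fun_prop) _ _),
    intervalIntegral.integral_const, intervalIntegral.integral_div]
  unfold sg
  simp
  ring

lemma abs_K_le (x : ℝ) : |K x| ≤ 1 := Real.abs_sinc_le_one _

lemma abs_sg_le {t : ℝ} (ht : 0 ≤ t) : |sg t| ≤ t := by
  unfold sg
  have h := intervalIntegral.norm_integral_le_of_norm_le_const (a := 0) (b := t)
    (f := fun x => K (2 * x - t)) (C := 1) (fun x _ => abs_K_le _)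
  rw [sub_zero, abs_of_nonneg ht, one_mul] at h
  exact h

lemma dbl_cont (f : ℝ → ℝ → ℝ) (hf : Continuous fun p : ℝ × ℝ => f p.1 p.2) (a b : ℝ) :
    Continuous fun x => ∫ y in a..b, f x y :=
  intervalIntegral.continuous_parametric_intervalIntegral_of_continuous' hf a b

/-- sum of the two second Fredholm integrals -/
lemma J_two_sum {t : ℝ} (ht : 0 ≤ t) : J (kp t) t 2 + J (km t) t 2 =
    (t ^ 2 + sg t ^ 2) / 2 - QQ t := by
  rw [J_two (good_kp t), J_two (good_km t), tau_kp ht, tau_km ht]
  simp_rw [Icc_int ht]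
  have hsum : (∫ x in (0 : ℝ)..t, ∫ y in (0 : ℝ)..t, kp t x y * kp t y x) +
      (∫ x in (0 : ℝ)..t, ∫ y in (0 : ℝ)..t, km t x y * km t y x) = QQ t := by
    have c1 : Continuous fun p : ℝ × ℝ => kp t p.1 p.2 * kp t p.2 p.1 := by
      unfold kp; fun_prop
    have c2 : Continuous fun p : ℝ × ℝ => km t p.1 p.2 * km t p.2 p.1 := by
      unfold km; fun_prop
    rw [← intervalIntegral.integral_add ((dbl_cont _ c1 0 t).intervalIntegrable _ _)
      ((dbl_cont _ c2 0 t).intervalIntegrable _ _)]
    unfold QQ
    apply intervalIntegral.integral_congr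
    intro x _
    simp only
    have c1x : Continuous fun y => kp t x y * kp t y x := by unfold kp; fun_prop
    have c2x : Continuous fun y => km t x y * km t y x := by unfold km; fun_prop
    rw [← intervalIntegral.integral_add (c1x.intervalIntegrable _ _) (c2x.intervalIntegrable _ _)]
    have e : ∀ y, kp t x y * kp t y x + km t x y * km t y x =
        K (x - y) ^ 2 / 2 + K (x - (t - y)) ^ 2 / 2 := by
      intro y
      unfold kp km
      have e1 : K (y - x) = K (x - y) := by rw [← K_even, neg_sub]
      have e2 : y + x - t = x + y - t := by ring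
      have e3 : x - (t - y) = x + y - t := by ring
      rw [e1, e2, e3]
      ring
    simp_rw [e]
    rw [intervalIntegral.integral_add (Continuous.intervalIntegrable (by fun_prop) _ _)
      (Continuous.intervalIntegrable (by fun_prop) _ _), intervalIntegral.integral_div,
      intervalIntegral.integral_div,
      intervalIntegral.integral_comp_sub_left (fun y => K (x - y) ^ 2) t]
    simp
  linarith [hsum]

/-- void probability of the GOE -/
noncomputable def EG1 (s : ℝ) : ℝ := fred (kp s) s

/-- void probability of the GSE -/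
noncomputable def EG4 (s : ℝ) : ℝ := (fred (kp (2 * s)) (2 * s) + fred (km (2 * s)) (2 * s)) / 2

theorem EG1_ge {t : ℝ} (ht : 0 ≤ t) (ht3 : t ≤ 3) : 1 - (t + sg t) / 2 ≤ EG1 t := by
  have h := (bonferroni (s := t) (good_kp t) (by
    rw [tau_kp ht]
    have := (abs_le.1 (abs_sg_le ht)).2
    linarith)).1
  rw [tau_kp ht] at h
  exact h

theorem EG4_le {t : ℝ} (ht : 0 ≤ t) (ht3 : 2 * t ≤ 3) : EG4 t - 1 + t ≤
    (((2 * t) ^ 2 + sg (2 * t) ^ 2) / 2 - QQ (2 * t)) / 4 := by
  have ht2 : 0 ≤ 2 * t := by linarith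
  have hs := abs_le.1 (abs_sg_le ht2)
  have h1 := (bonferroni (s := 2 * t) (good_kp (2 * t)) (by rw [tau_kp ht2]; linarith [hs.2])).2
  have h2 := (bonferroni (s := 2 * t) (good_km (2 * t)) (by rw [tau_km ht2]; linarith [hs.1])).2
  have h3 := J_two_sum ht2
  rw [tau_kp ht2] at h1
  rw [tau_km ht2] at h2
  unfold EG4
  linarith

end Pool.Agent.E8helper28.RM
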